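import Pool.Agent.Work.MP_a8f287_co.C4.R5D

/-! Kernel checks, compiled separately. -/

namespace Pool.Agent.WW

theorem r5P_eq : r5L = r5P0 ++ r5P1 ++ r5P2 ++ r5P3 ++ r5P4 ++ r5P5 ++ r5P6 ++ r5P7 ++ r5P8 ++ r5P9 ++ r5P10 ++ r5P11 ++ r5P12 ++ r5P13 ++ r5P14 ++ r5P15 ++ r5P16 ++ r5P17 ++ r5P18 ++ r5P19 ++ r5P20 ++ r5P21 ++ r5P22 ++ r5P23 := by decide +kernel

theorem densAll : r5L.all densChk = true := by
  rw [r5P_eq]
  simp only [List.all_append, Bool.and_eq_true]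
  exact ⟨⟨⟨⟨⟨⟨⟨⟨⟨⟨⟨⟨⟨⟨⟨⟨⟨⟨⟨⟨⟨⟨⟨dens_0, dens_1⟩, dens_2⟩, dens_3⟩, dens_4⟩, dens_5⟩, dens_6⟩, dens_7⟩, dens_8⟩, dens_9⟩, dens_10⟩, dens_11⟩, dens_12⟩, dens_13⟩, dens_14⟩, dens_15⟩, dens_16⟩, dens_17⟩, dens_18⟩, dens_19⟩, dens_20⟩, dens_21⟩, dens_22⟩, dens_23⟩

theorem pieceAll : r5L.all pieceChk = true := by
  rw [r5P_eq]
  simp only [List.all_append, Bool.and_eq_true]
  exact ⟨⟨⟨⟨⟨⟨⟨⟨⟨⟨⟨⟨⟨⟨⟨⟨⟨⟨⟨⟨⟨⟨⟨piece_0, piece_1⟩, piece_2⟩, piece_3⟩, piece_4⟩, piece_5⟩, piece_6⟩, piece_7⟩, piece_8⟩, piece_9⟩, piece_10⟩, piece_11⟩, piece_12⟩, piece_13⟩, piece_14⟩, piece_15⟩, piece_16⟩, piece_17⟩, piece_18⟩, piece_19⟩, piece_20⟩, piece_21⟩, piece_22⟩, piece_23⟩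

theorem r5_prop : ∀ M ∈ r5L, (NonVC M ∨ (popM M ≤ 15 ∧ triM M + 18 ≤ 8 * popM M)) ∧
    ∀ ε < 32, M.testBit ε = true → 22 ≤ nXM M ε →
      (triLM M ε ≤ 240 ∨ FanoM M ∨ Del4M M ∨ C15M M) := by
  intro M hM
  have h1 := List.all_eq_true.1 densAll M hM
  have h2 := List.all_eq_true.1 pieceAll M hM
  constructor
  · unfold densChk at h1
    simp only [Bool.or_eq_true, Bool.and_eq_true, decide_eq_true_eq, List.contains_iff_mem,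
      List.mem_map] at h1
    rcases h1 with ⟨r, hr, rfl⟩ | h1
    · exact Or.inl (nvChk_sound (List.all_eq_true.1 nvAll r hr))
    · refine Or.inr ⟨h1.1, ?_⟩
      rw [triM_eq]
      exact h1.2
  · intro ε hε hb hn
    unfold pieceChk at h2
    simp only [Bool.or_eq_true, Bool.not_eq_true', decide_eq_true_eq, List.contains_iff_mem,
      List.mem_map, List.all_eq_true, List.mem_range] at h2
    rcases h2 with ⟨r, hr, rfl⟩ | h2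
    · exact Or.inr (wChk_sound (List.all_eq_true.1 wAll r hr))
    · rcases h2 ε hε with (h | h) | h
      · rw [hb] at h; exact absurd h (by simp)
      · omega
      · refine Or.inl ?_
        rw [triLM_eq]
        exact h

end Pool.Agent.WW
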