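import Pool.Agent.Work.MP_a8f287_co.Bd.B10
import Pool.Agent.Work.MP_a8f287_co.Bd.B02
import Pool.Agent.Work.MP_a8f287_co.Bd.B04
import Pool.Agent.Work.MP_a8f287_co.Bd.B03
import Pool.Agent.Work.MP_a8f287_co.Bd.B05
import Pool.Agent.Work.MP_a8f287_co.Bd.B07
import Pool.Agent.Work.MP_a8f287_co.Bd.B12

/-!
The claims for the bound `c(M;2) ≤ 4`, without hypotheses.
-/

namespace Pool.Agent.WW

open Submodule Module

universe u

/-! ### The claims without hypotheses -/

theorem cLkStar : ClaimLkStar.{u} := claimLkStar claimLkHyper
theorem cTrick : ClaimTrick.{u} := claimTrick claimLkHyper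
theorem cFill : ClaimFill.{u} := claimFill cTrick cLkStar
theorem cFillOne : ClaimFillOne.{u} := claimFillOne cLkStar
theorem cFull : ClaimFull.{u} :=
  claimFull claimRel claimSum claimLkSep cFill claimSepGe claimNoTriad
theorem cPiece : ClaimPiece.{u} := claimPiece claimSub
theorem cRooted : ClaimRooted.{u} := claimRooted claimInv cPiece claimTwelve
theorem cBoundN : ClaimBoundN.{u} := claimBoundN claimInv cPiece cRooted
theorem cSepQ : ClaimSepQ.{u} := claimSepQ claimSub
theorem cChain : ClaimChain.{u} := claimChain claimInv
theorem cLeafCore : ClaimLeafCore.{u} := claimLeafCore claimLines claimLift claimStar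
theorem cLeaf : ClaimLeaf.{u} := claimLeaf cTrick cLkStar claimLkSep claimSepGe cLeafCore
theorem cBranchCore : ClaimBranchCore.{u} := claimBranchCore claimLines claimLift claimStar
theorem cBranch : ClaimBranch.{u} := claimBranch cLkStar claimLkSep claimSepGe cBranchCore
theorem cHyp : ClaimHyp.{u} := claimHyp claimTwelve cSepQ cChain cLeaf cBranch claimInv
theorem cBase : ClaimBase.{u} := claimBase claimR5 claimSepGe
theorem cBigPiece : ClaimBigPiece.{u} := claimBigPiece claimR5
theorem cTL : ClaimTL.{u} := claimTL claimQQMin claimQQTri claimVCSpan claimSmall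
theorem cColGood : ClaimColGood.{u} := claimColGood claimExt
theorem cColSep : ClaimColSep.{u} := claimColSep claimRel claimLkSep cFill cFillOne claimGlue
theorem cColour : ClaimColour.{u} := claimColour cColGood cColSep

end Pool.Agent.WW
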