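import Pool.Agent.Work.MP_a8f287_co.C4.TbE

/-!
Certificates for TabC15.
-/

namespace Pool.Agent.WW

theorem tabC15_all (a : ℕ) (ha : a < 32) (h0 : a ≠ 0) : ∀ p ∈ patC15 a, CertM (mskC15 a p) := by
  interval_cases a
  · exact absurd rfl h0
  · exact chkL_sound tabC15_1
  · exact chkL_sound tabC15_2
  · exact chkL_sound tabC15_3
  · exact chkL_sound tabC15_4
  · exact chkL_sound tabC15_5
  · exact chkL_sound tabC15_6
  · exact chkL_sound tabC15_7
  · exact chkL_sound tabC15_8
  · exact chkL_sound tabC15_9
  · exact chkL_sound tabC15_10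
  · exact chkL_sound tabC15_11
  · exact chkL_sound tabC15_12
  · exact chkL_sound tabC15_13
  · exact chkL_sound tabC15_14
  · exact chkL_sound tabC15_15
  · exact chkL_sound tabC15_16
  · exact chkL_sound tabC15_17
  · exact chkL_sound tabC15_18
  · exact chkL_sound tabC15_19
  · exact chkL_sound tabC15_20
  · exact chkL_sound tabC15_21
  · exact chkL_sound tabC15_22
  · exact chkL_sound tabC15_23
  · exact chkL_sound tabC15_24
  · exact chkL_sound tabC15_25
  · exact chkL_sound tabC15_26
  · exact chkL_sound tabC15_27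
  · exact chkL_sound tabC15_28
  · exact chkL_sound tabC15_29
  · exact chkL_sound tabC15_30
  · exact chkL_sound tabC15_31

theorem tabC15 : TabC15 := by
  refine sorted_triple 32 (fun a b c => CertM (mask (c15 ++
    [32, 32 ^^^ a, 32 ^^^ b, 32 ^^^ c]))) ?_ ?_ ?_
  · intro a b c h
    refine CertM.of_subset ?_ h
    intro n hn
    simp only [List.mem_append, List.mem_cons, List.not_mem_nil, or_false] at hn ⊢
    tauto
  · intro a b c h
    refine CertM.of_subset ?_ h
    intro n hn
    simp only [List.mem_append, List.mem_cons, List.not_mem_nil, or_false] at hn ⊢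
    tauto
  · intro a ha b hb c hc h0 hab hbc h
    refine tabC15_all a ha h0 (b, c) ?_
    unfold patC15
    rw [List.mem_filter]
    refine ⟨List.mem_product.2 ⟨List.mem_range.2 hb, List.mem_range.2 hc⟩, ?_⟩
    simp [hab, hbc, h]

end Pool.Agent.WW
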