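import Pool.Agent.Work.MP_a8f287_co.Bd.B10
import Pool.Agent.Work.MP_a8f287_co.Bd.B02
import Pool.Agent.Work.MP_a8f287_co.Bd.B04
import Pool.Agent.Work.MP_a8f287_co.Bd.B03
import Pool.Agent.Work.MP_a8f287_co.Bd.B05
import Pool.Agent.Work.MP_a8f287_co.Bd.B07
import Pool.Agent.Work.MP_a8f287_co.Bd.B12
import Pool.Agent.Work.MP_a8f287_co.C4.TabC15
import Pool.Agent.Work.MP_a8f287_co.C4.AsmA
import Pool.Agent.Work.MP_a8f287_co.Bd.T09

/-!
Assembly of the bound `c(M;2) ≤ 4`.
-/

namespace Pool.Agent.WW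

open Submodule Module

universe u

/-! ### Contraction of one element -/

theorem c4_ker {V : Type u} [AddCommGroup V] [Module (ZMod 2) V] (e : V) :
    ∀ v, (span (ZMod 2) {e}).mkQ v = 0 ↔ v = 0 ∨ v = e := by
  intro v
  rw [Submodule.mkQ_apply, Submodule.Quotient.mk_eq_zero, Submodule.mem_span_singleton]
  constructor
  · rintro ⟨a, rfl⟩
    fin_cases a
    · left; exact zero_smul _ _
    · right; exact one_smul _ _
  · rintro (rfl | rfl)
    · exact ⟨0, zero_smul _ _⟩
    · exact ⟨1, one_smul _ _⟩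

theorem c4_finrank_quot {V : Type u} [AddCommGroup V] [Module (ZMod 2) V]
    [FiniteDimensional (ZMod 2) V] {e : V} (he : e ≠ 0) :
    finrank (ZMod 2) (V ⧸ span (ZMod 2) {e}) + 1 = finrank (ZMod 2) V := by
  have h := Submodule.finrank_quotient_add_finrank (span (ZMod 2) {e})
  rw [finrank_span_singleton he] at h
  exact h

/-- an element of minimal degree -/
theorem c4_min_deg {V : Type u} [AddCommGroup V] [Module (ZMod 2) V]
    [FiniteDimensional (ZMod 2) V] [DecidableEq V] {E : Finset V} (hG : Good (E : Set V))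
    (h1 : 1 ≤ finrank (ZMod 2) V) : ∃ e ∈ E, (∀ a ∈ E, deg E e ≤ deg E a) ∧
      E.card * deg E e ≤ tri E := by
  have hne : E.Nonempty := by
    rw [Finset.nonempty_iff_ne_empty]
    rintro rfl
    have hs := hG.span
    rw [Finset.coe_empty, Submodule.span_empty] at hs
    have h2 : finrank (ZMod 2) ↥(⊤ : Submodule (ZMod 2) V) = 0 := by rw [← hs]; simp
    rw [finrank_top] at h2
    omega
  obtain ⟨e, he, hmin⟩ := Finset.exists_min_image E (deg E) hne
  refine ⟨e, he, hmin, ?_⟩
  rw [← sum_deg E (fun h => hG.zero (by exact_mod_cast h)), ← smul_eq_mul]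
  exact Finset.card_nsmul_le_sum _ _ _ hmin

/-! ### The triangle inequality -/

theorem tt_step (hF : ClaimFanoPiece.{u}) (n : ℕ) (h6 : 6 ≤ n)
    (ih : ∀ m, 5 ≤ m → m < n → TT.{u} m) : TT.{u} n := by
  intro V _ _ _ _ E hG hn
  classical
  by_contra hbad
  rw [not_le] at hbad
  have h0 : (0 : V) ∉ E := fun h => hG.zero (by exact_mod_cast h)
  obtain ⟨e, he, hmin, hsum⟩ := c4_min_deg hG (by omega)
  have he0 : e ≠ 0 := fun h => h0 (h ▸ he)
  have hker := c4_ker e
  set π := (span (ZMod 2) {e}).mkQ with hπ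
  have hsurj : Function.Surjective π := Submodule.mkQ_surjective _
  have hW := c4_finrank_quot he0
  have hnoD : ∀ e p q r : V, Del4 (E : Set V) e p q r →
      finrank (ZMod 2) ↥(span (ZMod 2) {e, p, q, r}) = 4 → False := fun e p q r h1 h2 =>
    claimNoDel4 tabDel4 V (E : Set V) e p q r hG (by omega) h1 h2
  have hnoF : ∀ U : Submodule (ZMod 2) V, finrank (ZMod 2) U = 3 → ∃ u ∈ U, u ≠ 0 ∧ u ∉ E := by
    intro U hU
    have hne : ∃ a ∈ (E : Set V), a ∉ U := by
      by_contra hcon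
      push Not at hcon
      have h1 : span (ZMod 2) (E : Set V) ≤ U := span_le.2 hcon
      rw [hG.span] at h1
      have h2 := Submodule.finrank_mono h1
      rw [finrank_top] at h2
      omega
    obtain ⟨u, hu, hu0, huE⟩ := no_fano hG U hU hne
    exact ⟨u, hu, hu0, fun h => huE (by exact_mod_cast h)⟩
  have hnoC : ∀ b : Fin 5 → V, LinearIndependent (ZMod 2) b →
      (∀ n ∈ c15, comb b n ∈ E) → False := fun b hb h =>
    claimNoC15 tabC15 V (E : Set V) b hG (by omega) hb (fun m hm => by exact_mod_cast h m hm)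
  have hN0 : (0 : V ⧸ span (ZMod 2) {e}) ∉ contr π E := by unfold contr; simp
  have hspN := ((claimSepGe V (V ⧸ span (ZMod 2) {e}) E hG (by omega)).2 π e hsurj hker he).1
  have hcN : finrank (ZMod 2) (V ⧸ span (ZMod 2) {e}) ≤ (contr π E).card := by
    have h1 := finrank_span_finset_le_card (R := ZMod 2) (contr π E)
    rw [Set.finrank, hspN, finrank_top] at h1
    exact h1
  have hQ := cTL V (V ⧸ span (ZMod 2) {e}) E π e hsurj hker h0 he hG.free
    (fun m h5 hm => ih m h5 (by omega))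
    (fun X G hGd hX hXc => hF V (V ⧸ span (ZMod 2) {e}) E π e X G hker h0 he hnoD hnoF hGd hX hXc)
    (fun X Q hQd hXQ hXc h11 => cBigPiece tabR5 V (V ⧸ span (ZMod 2) {e}) E π e X Q hsurj hker h0
      he hG.free hnoD hnoF hnoC hQd hXQ hXc h11)
    (by omega) (contr π E) (Finset.Subset.refl _) (by omega)
  have h1 := hQ.1
  have h2 := claimTriL V (V ⧸ span (ZMod 2) {e}) E π e hker h0 he
  have h3 := card_contr π E e hker h0 he
  have h4 := card_DD π E e hker h0 he
  have h5 : 2 * EE π E e ≤ (DD π E e).card * (DD π E e).card := by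
    have := claimMantel (V ⧸ span (ZMod 2) {e}) (DD π E e) (fun x y => x + y ∈ contr π E)
      (fun x y h => by rwa [add_comm]) (fun x => by rw [add_self_eq]; exact hN0)
      (fun x hx y hy z hz hxy hyz hxz => by
        obtain ⟨p, q, r, -, -, -, hD, h4⟩ :=
          triangle_lift hG (by omega) he π hker x y z hx hy hz hxy hyz hxz
        exact hnoD e p q r hD h4)
    unfold EE
    convert this
  have hdeg : deg E e + 1 ≤ E.card := by
    unfold deg
    have : E.filter (fun a => a + e ∈ E) ⊆ E.erase e := by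
      intro a ha
      rw [Finset.mem_filter] at ha
      rw [Finset.mem_erase]
      refine ⟨?_, ha.1⟩
      rintro rfl
      rw [add_self_eq] at ha
      exact h0 ha.2
    have h := Finset.card_le_card this
    rw [Finset.card_erase_of_mem he] at h
    omega
  -- arithmetic
  generalize hx : EE π E e = x at *
  generalize hy : (DD π E e).card = y at *
  generalize hd : deg E e = d at *
  generalize hc : E.card = c at *
  generalize ht : tri E = t at *
  generalize hm : (contr π E).card = m at *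
  generalize hl : triL π E (contr π E) = l at *
  subst h4
  have e1 : 8 * m + 8 + 8 * y = 8 * c := by omega
  have e2 : 8 + 2 * y < 3 * x := by omega
  have e3 : c * (2 * y) + 18 + 8 + 8 * y ≤ 8 * c + 6 * y + 3 * x := by omega
  -- y ≥ 4
  have hy4 : 4 ≤ y := by
    by_contra hlt
    rw [not_le] at hlt
    interval_cases y <;> omega
  obtain ⟨s, rfl⟩ : ∃ s, y = s + 4 := ⟨y - 4, by omega⟩
  obtain ⟨c', rfl⟩ : ∃ c', c = c' + (2 * (s + 4) + 1) := ⟨c - (2 * (s + 4) + 1), by omega⟩
  nlinarith [e3, h5]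

theorem tt_all (hF : ClaimFanoPiece.{u}) (n : ℕ) (h5 : 5 ≤ n) : TT.{u} n := by
  induction n using Nat.strong_induction_on with
  | _ n ih =>
    rcases Nat.eq_or_lt_of_le h5 with rfl | h6
    · exact (cBase tabR5).1
    · exact tt_step hF n h6 (fun m h5 hm => ih m hm h5)

/-! ### The density inequality -/

/-- a maximal free superset -/
theorem c4_maxFree {W : Type u} [AddCommGroup W] [Module (ZMod 2) W] [FiniteDimensional (ZMod 2) W]
    (N : Set W) (h0 : (0 : W) ∉ N) (hf : ¬ HasK5 N) : ∃ S : Set W, N ⊆ S ∧ MaxFree S := by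
  have : Finite W := Module.finite_of_finite (ZMod 2)
  have hfin : Finite (Set W) := inferInstance
  obtain ⟨S, hNS, hS⟩ := (Set.toFinite {S : Set W | (0 : W) ∉ S ∧ ¬ HasK5 S}).exists_le_maximal
    (show N ∈ {S : Set W | (0 : W) ∉ S ∧ ¬ HasK5 S} from ⟨h0, hf⟩)
  refine ⟨S, hNS, hS.1.1, hS.1.2, ?_⟩
  intro x hx hfx
  have h1 : insert x S ∈ {S : Set W | (0 : W) ∉ S ∧ ¬ HasK5 S} := by
    refine ⟨?_, hfx⟩
    rw [Set.mem_insert_iff, not_or]
    exact ⟨fun h => hx h.symm, hS.1.1⟩
  exact hS.2 h1 (Set.subset_insert x S) (Set.mem_insert x S)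

theorem d4_step (hF : ClaimFanoPiece.{u}) (n : ℕ) (h6 : 6 ≤ n)
    (ih : ∀ m, 5 ≤ m → m < n → D4.{u} m) : D4.{u} n := by
  intro V _ _ _ _ E hG hn
  classical
  have h0 : (0 : V) ∉ E := fun h => hG.zero (by exact_mod_cast h)
  obtain ⟨e, he, hmin, hsum⟩ := c4_min_deg hG (by omega)
  have he0 : e ≠ 0 := fun h => h0 (h ▸ he)
  have hker := c4_ker e
  set π := (span (ZMod 2) {e}).mkQ with hπ
  have hsurj : Function.Surjective π := Submodule.mkQ_surjective _
  have hW := c4_finrank_quot he0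
  have hTT := tt_all hF n (by omega) V E hG hn
  have hdeg : deg E e ≤ 7 := by
    by_contra hlt
    rw [not_le] at hlt
    have : E.card * 8 ≤ E.card * deg E e := Nat.mul_le_mul_left _ hlt
    omega
  have h3 := card_contr π E e hker h0 he
  have hN0 : (0 : V ⧸ span (ZMod 2) {e}) ∉ (contr π E : Set (V ⧸ span (ZMod 2) {e})) := by
    unfold contr; simp
  have hNf : ¬ HasK5 (contr π E : Set (V ⧸ span (ZMod 2) {e})) :=
    fun h => hG.free (HasK5.of_contr π hker E he h)
  obtain ⟨S, hNS, hS⟩ := c4_maxFree (contr π E : Set (V ⧸ span (ZMod 2) {e})) hN0 hNf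
  have hFull : Full S ⊤ := cFull V (V ⧸ span (ZMod 2) {e}) E π e S hG (by omega) hsurj hker he
    hmin (fun x hx => hNS (by exact_mod_cast hx)) hS
  have hN : (contr π E).card + 5 ≤ 4 * finrank (ZMod 2) (V ⧸ span (ZMod 2) {e}) := by
    by_cases hyp : ∀ Q F F' : Submodule (ZMod 2) (V ⧸ span (ZMod 2) {e}), Sep S ⊤ F F' →
        F ⊓ F' ≤ Q → Q ≤ F → finrank (ZMod 2) Q = 4 →
        (S ∩ (Q : Set (V ⧸ span (ZMod 2) {e}))).ncard = 12 →
        ∃ x ∈ S, x ∈ Q ∧ x ∉ F ⊓ F' ∧ x ∉ (contr π E : Set (V ⧸ span (ZMod 2) {e}))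
    · have h := cBoundN (V ⧸ span (ZMod 2) {e}) S (contr π E : Set (V ⧸ span (ZMod 2) {e})) hNS
        hS.1 hS.2.1 hFull (by omega) (fun m h5 hm => ih m h5 (by omega)) hyp
      rwa [Set.ncard_coe_finset] at h
    · push Not at hyp
      obtain ⟨Q, F, F', hSep, hQ1, hQ2, hQ3, hQ4, hQ5⟩ := hyp
      have h := cHyp tabLeaf tabBranch V (V ⧸ span (ZMod 2) {e}) E π e S Q F F' hG (by omega)
        hsurj hker he (fun x hx => hNS (by exact_mod_cast hx)) hS.1 hS.2.1 hFull hSep hQ1 hQ2 hQ3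
        hQ4 (fun x hx hxQ hxF => by exact_mod_cast hQ5 x hx hxQ hxF)
      omega
  omega

theorem d4_all (hF : ClaimFanoPiece.{u}) (n : ℕ) (h5 : 5 ≤ n) : D4.{u} n := by
  induction n using Nat.strong_induction_on with
  | _ n ih =>
    rcases Nat.eq_or_lt_of_le h5 with rfl | h6
    · exact (cBase tabR5).2
    · exact d4_step hF n h6 (fun m h5 hm => ih m hm h5)

/-- the critical exponent of a binary matroid without `M(K5)`-minor is at most four -/
theorem crit_four_of (hF : ClaimFanoPiece.{u}) {V : Type u} [AddCommGroup V] [Module (ZMod 2) V]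
    [FiniteDimensional (ZMod 2) V] (E : Finset V) (h0 : (0 : V) ∉ E)
    (hfree : ¬ HasK5 (E : Set V)) :
    ∃ f : V →ₗ[ZMod 2] (Fin 4 → ZMod 2), ∀ v ∈ E, f v ≠ 0 :=
  cColour (fun m h5 => d4_all hF m h5) V E h0 hfree

end Pool.Agent.WW
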