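import Pool.Agent.Work.MP_a8f287_co.Bd.T08

/-! Kernel checks, compiled separately. -/

namespace Pool.Agent.WW

theorem filter_prod {α : Type*} (f : α → Bool) (g : α × α → Bool) (l₂ : List α) :
    ∀ l₁ : List α, (l₁ ×ˢ l₂).filter (fun p => f p.1 && f p.2 && g p) =
      ((l₁.filter f) ×ˢ (l₂.filter f)).filter g
  | [] => rfl
  | a :: l₁ => by
    rw [List.product_cons, List.filter_append, filter_prod f g l₂ l₁]
    cases ha : f a
    · rw [List.filter_cons_of_neg (by simp [ha])]
      have : (List.map (fun b => (a, b)) l₂).filter (fun p => f p.1 && f p.2 && g p) = [] := by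
        rw [List.filter_eq_nil_iff]
        intro p hp
        obtain ⟨b, -, rfl⟩ := List.mem_map.1 hp
        simp [ha]
      rw [this, List.nil_append]
    · rw [List.filter_cons_of_pos ha, List.product_cons, List.filter_append]
      congr 1
      rw [List.filter_map, List.filter_map, List.filter_filter]
      congr 1
      apply List.filter_congr
      intro b _
      simp [Function.comp, ha, Bool.and_comm]

/-- `triM` computed on the present codes -/
theorem triM_eq (M : ℕ) : triM M =
    ((((List.range 32).filter (fun n => M.testBit n)) ×ˢ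
      ((List.range 32).filter (fun n => M.testBit n))).filter
        (fun p => M.testBit (p.1 ^^^ p.2))).length := by
  unfold triM
  rw [filter_prod (fun n => M.testBit n) (fun p => M.testBit (p.1 ^^^ p.2))]

theorem triLM_eq (M ε : ℕ) : triLM M ε =
    ((((List.range 32).filter (prM M ε)) ×ˢ ((List.range 32).filter (prM M ε))).filter
        (fun p => prM M ε (p.1 ^^^ p.2) && lifM M ε p.1 p.2)).length := by
  unfold triLM
  rw [← filter_prod (prM M ε) (fun p => prM M ε (p.1 ^^^ p.2) && lifM M ε p.1 p.2)]
  simp only [Bool.and_assoc]

/-- `triM` on a list of present codes -/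
def triF (M : ℕ) (l : List ℕ) : ℕ := ((l ×ˢ l).filter fun p => M.testBit (p.1 ^^^ p.2)).length

/-- `triLM` on a list of present codes -/
def triLF (M ε : ℕ) (l : List ℕ) : ℕ :=
  ((l ×ˢ l).filter fun p => prM M ε (p.1 ^^^ p.2) && lifM M ε p.1 p.2).length

/-- masks that are not vertically 4-connected, with a witness -/
def r5NV : List (ℕ × (ℕ × (ℕ × (ℕ × ℕ)))) := [
  (125886, (16, (16, (16, 16)))),
  (256958, (16, (16, (17, 16)))),
  (748030, (8, (8, (11, 13)))),
  (40831390, (4, (4, (7, 21)))),
  (1094796286, (6, (2, (3, 4)))),
  (107940254, (4, (4, (7, 21)))),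
  (1010174, (8, (8, (11, 13)))),
  (573540766, (19, (1, (2, 16)))),
  (519102, (16, (16, (17, 18)))),
  (1210182590, (16, (16, (21, 27))))]

/-- masks with a Fano plane, an odd triangle or `C15`, with the images of the unit codes -/
def r5W : List (ℕ × List ℕ) := [
  (69630, [1, 2, 4]),
  (109502, [1, 2, 4, 8]),
  (616958, [1, 2, 4]),
  (50660350, [1, 2, 4]),
  (125886, [1, 2, 4, 8]),
  (1118206, [1, 2, 4]),
  (4296694, [4, 1, 2, 15]),
  (17107966, [1, 2, 4]),
  (4300726, [1, 4, 9, 10]),
  (2190270, [1, 2, 4, 8]),
  (256958, [1, 2, 4, 8]),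
  (36669854, [1, 2, 16]),
  (748030, [1, 2, 4]),
  (40831390, [1, 2, 16]),
  (84232182, [2, 8, 16]),
  (1094796286, [1, 2, 4]),
  (17928182, [4, 1, 2, 15]),
  (17932214, [1, 4, 9, 10]),
  (1210132990, [1, 2, 4]),
  (1210166206, [1, 2, 4, 8]),
  (107940254, [1, 2, 16]),
  (1010174, [1, 2, 4]),
  (573540766, [1, 2, 16]),
  (2219281334, [1, 2, 4, 8, 16]),
  (519102, [1, 2, 4, 8]),
  (1210182590, [5, 11, 16])]

/-- check of a witness against vertical 4-connectivity -/
def nvChk (r : ℕ × (ℕ × (ℕ × (ℕ × ℕ)))) : Bool :=
  decide (r.2.2.1 < 32) && decide (r.2.2.2.1 < 32) && decide (r.2.2.2.2 < 32) &&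
  ((List.range 32).all fun v => !r.1.testBit v || !parC (r.2.1 &&& v) ||
    (spanList [r.2.2.1, r.2.2.2.1, r.2.2.2.2]).contains v) &&
  [r.2.2.1, r.2.2.2.1, r.2.2.2.2].any fun c => parC (r.2.1 &&& c)

theorem nvChk_sound {r : ℕ × (ℕ × (ℕ × (ℕ × ℕ)))} (h : nvChk r = true) : NonVC r.1 := by
  unfold nvChk at h
  simp only [Bool.and_eq_true, decide_eq_true_eq, List.all_eq_true, List.mem_range,
    Bool.or_eq_true, Bool.not_eq_true', List.contains_iff_mem, List.any_eq_true] at h
  obtain ⟨⟨⟨⟨h1, h2⟩, h3⟩, h4⟩, h5⟩ := h
  refine ⟨r.2.1, _, _, _, h1, h2, h3, ?_, h5⟩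
  intro v hv hb
  rcases h4 v hv with (h | h) | h
  · rw [hb] at h; exact absurd h (by simp)
  · exact Or.inl h
  · exact Or.inr h

/-- check of a witness of a special subset -/
def wChk (r : ℕ × List ℕ) : Bool :=
  (r.2.all fun c => decide (c < 32)) &&
  ((List.range (2 ^ r.2.length)).all fun m => m == 0 || linC r.2 m != 0) &&
  ((r.2.length == 3 && ((List.range 8).all fun m => m == 0 || r.1.testBit (linC r.2 m))) ||
   (r.2.length == 4 && ([1, 2, 4, 8, 3, 5, 9, 7, 13, 11].all fun m => r.1.testBit (linC r.2 m))) ||
   (r.2.length == 5 && (c15.all fun m => r.1.testBit (linC r.2 m))))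

theorem wChk_sound {r : ℕ × List ℕ} (h : wChk r = true) : FanoM r.1 ∨ Del4M r.1 ∨ C15M r.1 := by
  unfold wChk at h
  simp only [Bool.and_eq_true, decide_eq_true_eq, List.all_eq_true, List.mem_range,
    Bool.or_eq_true, beq_iff_eq, bne_iff_ne] at h
  obtain ⟨⟨h1, h2⟩, h3⟩ := h
  have hI : IndepC r.2 := fun m hm h0 => (h2 m hm).resolve_left h0
  rcases h3 with (⟨h3, h4⟩ | ⟨h3, h4⟩) | ⟨h3, h4⟩
  · exact Or.inl ⟨r.2, h3, h1, hI, fun m hm h0 => (h4 m hm).resolve_left h0⟩
  · exact Or.inr (Or.inl ⟨r.2, h3, h1, hI, h4⟩)
  · exact Or.inr (Or.inr ⟨r.2, h3, h1, hI, h4⟩)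

theorem nvAll : r5NV.all nvChk = true := by decide +kernel

theorem wAll : r5W.all wChk = true := by decide +kernel

/-- check of the density and triangle inequality -/
def densChk (M : ℕ) : Bool :=
  (r5NV.map Prod.fst).contains M || (decide (popM M ≤ 15) && decide (triF M ((List.range 32).filter fun n => M.testBit n) + 18 ≤ 8 * popM M))

def r5P0 : List ℕ := [
  65814,
  2147549462,
  98582,
  65942,
  65822,
  69918,
  134283670,
  16843158,
  67990,
  65950,
  66454,
  2147549590]

theorem dens_0 : r5P0.all densChk = true := by decide +kernel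

def r5P1 : List ℕ := [
  2147549470,
  65982,
  2165142,
  16843670,
  200990,
  2167070,
  67998,
  134283678,
  68022,
  134284182,
  134285718,
  69950]

theorem dens_1 : r5P1.all densChk = true := by decide +kernel

def r5P2 : List ℕ := [
  134283702,
  134291862,
  76182,
  592278,
  92566,
  136389014,
  68534,
  134308246,
  134291870,
  536938910,
  69275934,
  592286]

theorem dens_2 : r5P2.all densChk = true := by decide +kernel

def r5P3 : List ℕ := [
  76190,
  4395294,
  66046,
  134293910,
  2165206,
  35719574,
  2167102,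
  16845718,
  66494,
  82366,
  18942358,
  2165654]

theorem dens_3 : r5P3.all densChk = true := by decide +kernel

def r5P4 : List ℕ := [
  16843198,
  2173334,
  1073807806,
  201022,
  2165150,
  33620414,
  592310,
  17105814,
  16843678,
  17105846,
  4276670,
  2183203222]

theorem dens_4 : r5P4.all densChk = true := by decide +kernel

def r5P5 : List ℕ := [
  35719582,
  35719638,
  134424982,
  2165214,
  33620478,
  71504158,
  1117110,
  2173342,
  4262838,
  536947102,
  101302,
  592822]

theorem dens_5 : r5P5.all densChk = true := by decide +kernel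

def r5P6 : List ℕ := [
  138486174,
  68598,
  35727766,
  68542,
  136391062,
  4657438,
  136389046,
  616854,
  199606,
  1210130838,
  92574,
  136389022]

theorem dens_6 : r5P6.all densChk = true := by decide +kernel

def r5P7 : List ℕ := [
  8455102,
  16976790,
  134816158,
  134308254,
  223638,
  134291934,
  592318,
  2147552182,
  66558,
  134291902,
  134293918,
  2216759582]

theorem dens_7 : r5P7.all densChk = true := by decide +kernel

def r5P8 : List ℕ := [
  2167166,
  134422942,
  69275966,
  16843262,
  69407006,
  4919582,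
  600478,
  616862,
  1210130870,
  136389054,
  33623030,
  4295606]

theorem dens_8 : r5P8.all densChk = true := by decide +kernel

def r5P9 : List ℕ := [
  4263862,
  1149878,
  1118134,
  35744150,
  71766302,
  1210132886,
  68225974,
  1117118,
  71504222,
  537471390,
  134426006,
  2183203230]

theorem dens_9 : r5P9.all densChk = true := by decide +kernel

def r5P10 : List ℕ := [
  536963486,
  21053886,
  101310,
  71512350,
  17122230,
  68606,
  35719646,
  52496854,
  2173854,
  37831102,
  35850654,
  35720662]

theorem dens_10 : r5P10.all densChk = true := by decide +kernel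

def r5P11 : List ℕ := [
  35720150,
  592830,
  17105910,
  17107894,
  4276734,
  17105854,
  36243870,
  2165246,
  102828502,
  134424990,
  2218987806,
  134425014]

theorem dens_11 : r5P11.all densChk = true := by decide +kernel

def r5P12 : List ℕ := [
  134441366,
  19073942,
  2165726,
  136522134,
  4277182,
  2296286,
  2189726,
  35727774,
  2689502,
  69622,
  136391070,
  4266934]

theorem dens_12 : r5P12.all densChk = true := by decide +kernel

def r5P13 : List ℕ := [
  33620990,
  155263390,
  18942430,
  33621502,
  17105918,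
  1210132894,
  17895350,
  1150902,
  105058654,
  84231094,
  52505046,
  1280950]

theorem dens_13 : r5P13.all densChk = true := by decide +kernel

def r5P14 : List ℕ := [
  1379262,
  1117182,
  21041078,
  4426678,
  673259966,
  4263870,
  35744158,
  4296630,
  34671606,
  136389118,
  747934,
  1210149270]

theorem dens_14 : r5P14.all densChk = true := by decide +kernel

def r5P15 : List ℕ := [
  2190238,
  33627126,
  1210130878,
  153166270,
  33754102,
  1094795710,
  2714014,
  33623038,
  4295670,
  136389566,
  136391102,
  68357046]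

theorem dens_15 : r5P15.all densChk = true := by decide +kernel

def r5P16 : List ℕ := [
  1141967798,
  616894,
  1642422,
  33624054,
  34147318,
  69630,
  169943486,
  1208167830,
  4309950,
  72552798,
  71766366,
  36112798]

theorem dens_16 : r5P16.all densChk = true := by decide +kernel

def r5P17 : List ℕ := [
  109502,
  72290590,
  1210263958,
  35858846,
  76614582,
  2183334302,
  71404470,
  34671550,
  71506270,
  304179606,
  71512414,
  36374942]

theorem dens_17 : r5P17.all densChk = true := by decide +kernel

def r5P18 : List ℕ := [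
  539568542,
  537094558,
  68488118,
  54608318,
  199678,
  1126238678,
  345050038,
  36637086,
  616958,
  137438142,
  6908318,
  2714046]

theorem dens_18 : r5P18.all densChk = true := by decide +kernel

def r5P19 : List ℕ := [
  3357747606,
  1094796222,
  17928118,
  1210133406,
  1379326,
  84231158,
  1510334,
  1642486,
  1210130942,
  286330806,
  50660350,
  1210131390]

theorem dens_19 : r5P19.all densChk = true := by decide +kernel

def r5P20 : List ℕ := [
  105066846,
  1210132958,
  1210132926,
  17895414,
  17899446,
  17106942,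
  151323646,
  21049270,
  4688822,
  125886,
  71535542,
  1118206]

theorem dens_20 : r5P20.all densChk = true := by decide +kernel

def r5P21 : List ℕ := [
  4296694,
  1094795774,
  105320798,
  17107966,
  4300726,
  571542518,
  747966,
  12815286,
  2190270,
  256958,
  71797686,
  36669854]

theorem dens_21 : r5P21.all densChk = true := by decide +kernel

def r5P22 : List ℕ := [
  748030,
  40831390,
  84232182,
  1210133438,
  3357747638,
  1210149790,
  6908350,
  1094796286,
  1094828990,
  17928182,
  17932214,
  1210132990]

theorem dens_22 : r5P22.all densChk = true := by decide +kernel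

def r5P23 : List ℕ := [
  1210166206,
  107940254,
  1010174,
  573540766,
  2219281334,
  519102,
  1210182590]

theorem dens_23 : r5P23.all densChk = true := by decide +kernel

/-- check of the pieces -/
def pieceChk (M : ℕ) : Bool :=
  (r5W.map Prod.fst).contains M || (List.range 32).all fun ε =>
    !M.testBit ε || decide (nXM M ε < 22) || decide (triLF M ε ((List.range 32).filter (prM M ε)) ≤ 240)

end Pool.Agent.WW
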