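import Pool.Agent.Work.MP_a8f287_co.C4.R5A

/-! Kernel checks, compiled separately. -/

namespace Pool.Agent.WW

theorem piece_0 : r5P0.all pieceChk = true := by decide +kernel

theorem piece_1 : r5P1.all pieceChk = true := by decide +kernel

theorem piece_2 : r5P2.all pieceChk = true := by decide +kernel

theorem piece_3 : r5P3.all pieceChk = true := by decide +kernel

theorem piece_4 : r5P4.all pieceChk = true := by decide +kernel

theorem piece_5 : r5P5.all pieceChk = true := by decide +kernel

theorem piece_6 : r5P6.all pieceChk = true := by decide +kernel

theorem piece_7 : r5P7.all pieceChk = true := by decide +kernel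

end Pool.Agent.WW
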