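import Pool.Agent.Work.MP_a8f287_co.C4.R5B

/-! Kernel checks, compiled separately. -/

namespace Pool.Agent.WW

theorem piece_8 : r5P8.all pieceChk = true := by decide +kernel

theorem piece_9 : r5P9.all pieceChk = true := by decide +kernel

theorem piece_10 : r5P10.all pieceChk = true := by decide +kernel

theorem piece_11 : r5P11.all pieceChk = true := by decide +kernel

theorem piece_12 : r5P12.all pieceChk = true := by decide +kernel

theorem piece_13 : r5P13.all pieceChk = true := by decide +kernel

theorem piece_14 : r5P14.all pieceChk = true := by decide +kernel

theorem piece_15 : r5P15.all pieceChk = true := by decide +kernel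

end Pool.Agent.WW
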