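import Pool.Agent.Work.MP_a8f287_co.C4.R5C

/-! Kernel checks, compiled separately. -/

namespace Pool.Agent.WW

theorem piece_16 : r5P16.all pieceChk = true := by decide +kernel

theorem piece_17 : r5P17.all pieceChk = true := by decide +kernel

theorem piece_18 : r5P18.all pieceChk = true := by decide +kernel

theorem piece_19 : r5P19.all pieceChk = true := by decide +kernel

theorem piece_20 : r5P20.all pieceChk = true := by decide +kernel

theorem piece_21 : r5P21.all pieceChk = true := by decide +kernel

theorem piece_22 : r5P22.all pieceChk = true := by decide +kernel

theorem piece_23 : r5P23.all pieceChk = true := by decide +kernel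

end Pool.Agent.WW
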