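import Pool.Agent.Work.MP_a8f287_co.Bd.B02

/-! Kernel checks, compiled separately. -/

namespace Pool.Agent.WW

/-- the patterns with first entry `a` -/
def patC15 (a : ℕ) : List (ℕ × ℕ) :=
  (List.range 32 ×ˢ List.range 32).filter fun p =>
    decide (a < p.1) && decide (p.1 < p.2) && (a ^^^ p.1) != p.2

/-- the mask of a pattern -/
def mskC15 (a : ℕ) (p : ℕ × ℕ) : ℕ :=
  mask (c15 ++ [32, 32 ^^^ a, 32 ^^^ p.1, 32 ^^^ p.2])

end Pool.Agent.WW
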